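import Pool.Agent.LSG.StmtsD

/-!
Quotients of metrizable abelian topological groups by closed subgroups are metrizable.
-/

set_option autoImplicit false

open Topology

namespace Pool.Agent.LSG.H24

theorem qma_ : QmaStmt := by
  intro H _ _ _ _ L hL
  have hL' : IsClosed (L : Set H) := hL
  letI : UniformSpace (H ⧸ L) := IsTopologicalAddGroup.rightUniformSpace (H ⧸ L)
  haveI : (uniformity (H ⧸ L)).IsCountablyGenerated := Filter.comap.isCountablyGenerated _ _
  exact UniformSpace.metrizableSpace

end Pool.Agent.LSG.H24
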