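import Pool.Agent.LSG.Stmts

/-!
# Squad LSG, row MSB: measurability of isolated support points
-/

set_option autoImplicit false

open MeasureTheory Set Topology

namespace Pool.Agent.LSG.H24

variable {G : AddSubgroup K} {k : ℕ} {A B : Set (G × Fin k)}

/-- a set of points of `B` with measurable traces -/
def Good (Z : Set B) : Prop := ∀ i : Fin k, ∃ E : Set K, MeasurableSet E ∧ ∀ (x : K) (hx : x ∈ G),
  x ∈ E ↔ ∃ hB : ((⟨x, hx⟩ : G), i) ∈ B, (⟨_, hB⟩ : B) ∈ Z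

theorem good_open (h2 : TrcStmt) (hB : IsClopen B) {Z : Set B} (hZ : IsOpen Z) : Good Z := by
  intro i
  have h : IsOpen (Subtype.val '' Z : Set (G × Fin k)) :=
    hB.isOpen.isOpenEmbedding_subtypeVal.isOpenMap Z hZ
  obtain ⟨E, hE, h3⟩ := h2 G k _ h i
  refine ⟨E, hE, fun x hx => (h3 x hx).trans ?_⟩
  constructor
  · rintro ⟨b, hb, hbx⟩
    have hB' : ((⟨x, hx⟩ : G), i) ∈ B := hbx ▸ b.2
    have : (⟨_, hB'⟩ : B) = b := Subtype.ext hbx.symm
    exact ⟨hB', this ▸ hb⟩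
  · rintro ⟨hB', hb⟩
    exact ⟨_, hb, rfl⟩

theorem good_compl (h2 : TrcStmt) (hB : IsClopen B) {Z : Set B} (hZ : Good Z) : Good Zᶜ := by
  intro i
  obtain ⟨E, hE, h⟩ := hZ i
  obtain ⟨F, hF, h'⟩ := good_open h2 hB (Z := (Set.univ : Set B)) isOpen_univ i
  refine ⟨F \ E, hF.diff hE, fun x hx => ?_⟩
  rw [Set.mem_sdiff, h x hx, h' x hx]
  constructor
  · rintro ⟨⟨hB', -⟩, h4⟩
    exact ⟨hB', fun h5 => h4 ⟨hB', h5⟩⟩
  · rintro ⟨hB', h4⟩
    exact ⟨⟨hB', Set.mem_univ _⟩, fun ⟨hB'', h5⟩ => h4 h5⟩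

theorem good_iUnion {ι : Type} [Countable ι] {Z : ι → Set B} (hZ : ∀ n, Good (Z n)) :
    Good (⋃ n, Z n) := by
  intro i
  choose E hE h using fun n => hZ n i
  refine ⟨⋃ n, E n, MeasurableSet.iUnion hE, fun x hx => ?_⟩
  rw [Set.mem_iUnion]
  constructor
  · rintro ⟨n, hn⟩
    obtain ⟨hB', h4⟩ := (h n x hx).1 hn
    exact ⟨hB', Set.mem_iUnion.2 ⟨n, h4⟩⟩
  · rintro ⟨hB', h4⟩
    obtain ⟨n, hn⟩ := Set.mem_iUnion.1 h4
    exact ⟨n, (h n x hx).2 ⟨hB', hn⟩⟩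

theorem good_iInter (h2 : TrcStmt) (hB : IsClopen B) {ι : Type} [Countable ι] {Z : ι → Set B}
    (hZ : ∀ n, Good (Z n)) : Good (⋂ n, Z n) := by
  have h : Good (⋃ n, (Z n)ᶜ) := good_iUnion fun n => good_compl h2 hB (hZ n)
  have h' := good_compl h2 hB h
  rwa [← Set.compl_iInter, compl_compl] at h'

theorem good_inter (h2 : TrcStmt) (hB : IsClopen B) {Z W : Set B} (hZ : Good Z) (hW : Good W) :
    Good (Z ∩ W) := by
  have h : Good (⋂ n : Bool, cond n Z W) := good_iInter h2 hB fun n => by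
    cases n
    · exact hW
    · exact hZ
  rwa [← Set.inter_eq_iInter] at h

/-- the points of `B` whose support meets the box `u` -/
def Zs (c : B → A →₀ ℝ) (u : Ix k) : Set B := {b | ∃ a : A, c b a ≠ 0 ∧ a.1 ∈ box (G := G) u}

theorem clopen_box (h1 : BoxStmt) (u : Ix k) : IsClopen {a : A | a.1 ∈ box (G := G) u} :=
  ((h1 G k).2.1 u).preimage continuous_subtype_val

/-- the indicator function of a box -/
noncomputable def ind (h1 : BoxStmt) (A : Set (G × Fin k)) (u : Ix k) : C(A, ℝ) :=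
  (LocallyConstant.charFn ℝ (clopen_box (A := A) h1 u) : C(A, ℝ))

theorem ind_apply (h1 : BoxStmt) (u : Ix k) (a : A) :
    ind h1 A u a = Set.indicator {a : A | a.1 ∈ box (G := G) u} (1 : A → ℝ) a := by
  rw [ind]
  exact congrFun (LocallyConstant.coe_charFn ℝ (clopen_box (A := A) h1 u)) a

theorem Zs_eq (h1 : BoxStmt) (T : C(A, ℝ) →ₗ[ℝ] C(B, ℝ)) (c : B → A →₀ ℝ) (hc : Rep T c)
    (u : Ix k) : Zs c u = ⋃ w : {w : Ix k // box (G := G) w ⊆ box u},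
      {b : B | T (ind h1 A w.1) b ≠ 0} := by
  ext b
  rw [Set.mem_iUnion]
  constructor
  · rintro ⟨a, ha, hau⟩
    classical
    let S : Set (G × Fin k) := Subtype.val '' ((c b).support.erase a : Set A)
    have hS : S.Finite := (Finset.finite_toSet _).image _
    have hU : IsOpen (box (G := G) u ∩ Sᶜ) :=
      ((h1 G k).2.1 u).isOpen.inter hS.isClosed.isOpen_compl
    have haS : a.1 ∉ S := by
      rintro ⟨a', ha', h⟩
      have : a' = a := Subtype.ext h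
      rw [this] at ha'
      simp at ha'
    obtain ⟨w, hw, hwU⟩ := (h1 G k).2.2 _ hU a.1 ⟨hau, haS⟩
    refine ⟨⟨w, fun p hp => (hwU hp).1⟩, ?_⟩
    change T (ind h1 A w) b ≠ 0
    rw [hc, Finsupp.sum, Finset.sum_eq_single a]
    · rw [ind_apply, Set.indicator_of_mem (by exact hw), Pi.one_apply, mul_one]
      exact ha
    · intro a' ha' hne
      rw [ind_apply, Set.indicator_of_notMem, mul_zero]
      intro h
      refine (hwU h).2 ⟨a', ?_, rfl⟩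
      rw [Finset.mem_coe, Finset.mem_erase]
      exact ⟨hne, ha'⟩
    · intro h
      exact absurd (Finsupp.notMem_support_iff.1 h) ha
  · rintro ⟨w, hw⟩
    by_contra hcon
    refine hw ?_
    rw [hc, Finsupp.sum]
    refine Finset.sum_eq_zero fun a ha => ?_
    rw [ind_apply, Set.indicator_of_notMem, mul_zero]
    intro h
    exact hcon ⟨a, Finsupp.mem_support_iff.1 ha, w.2 h⟩

theorem good_Zs (h1 : BoxStmt) (h2 : TrcStmt) (hB : IsClopen B) (T : C(A, ℝ) →ₗ[ℝ] C(B, ℝ))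
    (c : B → A →₀ ℝ) (hc : Rep T c) (u : Ix k) : Good (Zs c u) := by
  have := (h1 G k).1
  rw [Zs_eq h1 T c hc u]
  refine good_iUnion fun w => good_open h2 hB ?_
  exact isOpen_ne_fun (T (ind h1 A w.1)).continuous continuous_const

theorem only_eq (h1 : BoxStmt) (c : B → A →₀ ℝ) (v : Ix k) :
    {b : B | ∃ p : A, Only (c b) v p} = Zs c v ∩
      ⋂ w : {w : Ix k × Ix k // box (G := G) w.1 ⊆ box v ∧ box (G := G) w.2 ⊆ box v ∧
        box (G := G) w.1 ∩ box w.2 = ∅}, (Zs c w.1.1 ∩ Zs c w.1.2)ᶜ := by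
  ext b
  constructor
  · rintro ⟨p, hp1, hp2, hp3⟩
    refine ⟨⟨p, hp1, hp2⟩, Set.mem_iInter.2 fun w => ?_⟩
    rintro ⟨⟨a, ha, ha'⟩, ⟨q, hq, hq'⟩⟩
    have e1 := hp3 a ha (w.2.1 ha')
    have e2 := hp3 q hq (w.2.2.1 hq')
    rw [e1] at ha'
    rw [e2] at hq'
    have : p.1 ∈ box (G := G) w.1.1 ∩ box w.1.2 := ⟨ha', hq'⟩
    rw [w.2.2.2] at this
    exact this
  · rintro ⟨⟨a, ha, hav⟩, h⟩
    refine ⟨a, ha, hav, fun q hq hqv => ?_⟩
    by_contra hne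
    have hne' : a.1 ≠ q.1 := fun e => hne (Subtype.ext e.symm)
    obtain ⟨U, U', hU, hU', haU, hqU, hd⟩ := t2_separation hne'
    have hv := ((h1 G k).2.1 v).isOpen
    obtain ⟨w, hw, hwU⟩ := (h1 G k).2.2 _ (hU.inter hv) a.1 ⟨haU, hav⟩
    obtain ⟨w', hw', hwU'⟩ := (h1 G k).2.2 _ (hU'.inter hv) q.1 ⟨hqU, hqv⟩
    have he : box (G := G) w ∩ box w' = ∅ := by
      rw [← Set.disjoint_iff_inter_eq_empty]
      exact hd.mono (fun p hp => (hwU hp).1) (fun p hp => (hwU' hp).1)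
    exact (Set.mem_iInter.1 h ⟨(w, w'), fun p hp => (hwU hp).2, fun p hp => (hwU' hp).2, he⟩)
      ⟨⟨a, ha, hw⟩, ⟨q, hq, hw'⟩⟩

theorem only_box_eq (h1 : BoxStmt) (c : B → A →₀ ℝ) (v w : Ix k) :
    {b : B | ∃ p : A, Only (c b) v p ∧ p.1 ∈ box (G := G) w} = {b : B | ∃ p : A, Only (c b) v p} ∩
      ⋃ u : {u : Ix k // box (G := G) u ⊆ box v ∩ box w}, Zs c u.1 := by
  ext b
  constructor
  · rintro ⟨p, hp, hpw⟩
    refine ⟨⟨p, hp⟩, Set.mem_iUnion.2 ?_⟩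
    obtain ⟨u, hu, huU⟩ := (h1 G k).2.2 _
      (((h1 G k).2.1 v).isOpen.inter ((h1 G k).2.1 w).isOpen) p.1 ⟨hp.2.1, hpw⟩
    exact ⟨⟨u, huU⟩, p, hp.1, hu⟩
  · rintro ⟨⟨p, hp⟩, h⟩
    obtain ⟨u, a, ha, hau⟩ := Set.mem_iUnion.1 h
    have e := hp.2.2 a ha (u.2 hau).1
    refine ⟨p, hp, ?_⟩
    rw [← e]
    exact (u.2 hau).2

theorem msb (h1 : BoxStmt) (h2 : TrcStmt) : MsbStmt := by
  intro G k A B _ hB T c hc v w i
  have := (h1 G k).1
  have hcd : Countable (Ix k × Ix k) := inferInstance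
  have hO : Good {b : B | ∃ p : A, Only (c b) v p} := by
    rw [only_eq h1 c v]
    refine good_inter h2 hB (good_Zs h1 h2 hB T c hc v) (good_iInter h2 hB fun u => ?_)
    exact good_compl h2 hB (good_inter h2 hB (good_Zs h1 h2 hB T c hc _)
      (good_Zs h1 h2 hB T c hc _))
  have hF : Good {b : B | ∃ p : A, Only (c b) v p ∧ p.1 ∈ box (G := G) w} := by
    rw [only_box_eq h1 c v w]
    exact good_inter h2 hB hO (good_iUnion fun u => good_Zs h1 h2 hB T c hc _)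
  obtain ⟨E, hE, h⟩ := hF i
  exact ⟨E, hE, fun x hx => h x hx⟩

end Pool.Agent.LSG.H24
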